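import Pool.Agent.H817R5.EP.Stubs

/-! Task STAGE: the induction step. -/

set_option autoImplicit false

open Finset

namespace Pool.Agent.H536R5.EP

open Pool.Agent.H817R5.EP

/-- the condition of `Good` -/
def Cd (X P H n : ℕ) : Prop :=
  ∀ p : ℕ, p.Prime → P < p → p ^ 2 ≤ 3 * X → ∀ j < H, p ≤ (n + j) % p ^ 2

theorem mem_Good (X P H y : ℕ) : y ∈ Good X P H ↔ y ∈ Ico X (2 * X) ∧ Cd X P H y := by
  classical
  unfold Good Cd
  rw [Finset.mem_filter]

theorem ind_single (a : ℕ → ℕ) (p n : ℕ) :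
    ind a {p} n = if n % p ^ 2 < a p then 1 else 0 := by
  unfold ind
  simp

theorem ind_nonneg (a : ℕ → ℕ) (T : Finset ℕ) (n : ℕ) : 0 ≤ ind a T n := by
  unfold ind
  split_ifs <;> norm_num

theorem den_single (a : ℕ → ℕ) (p : ℕ) : den a {p} = (a p : ℝ) / (p : ℝ) ^ 2 := by
  unfold den
  rw [prod_singleton]

/-- pointwise union bound -/
theorem step1 (X P H P' H' z s y r : ℕ) (hy : Cd X P H y) (hr : r + H' ≤ H)
    (hs : H' ≤ s + 1) :
    (1 : ℝ) ≤ (open Classical in if Cd X P' H' (y + r) then (1 : ℝ) else 0) +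
      (∑ p ∈ (Ioc P' z).filter Nat.Prime, ind (fun p => p + s) {p} (y + s + r) +
        ∑ p ∈ (Ioc z P).filter Nat.Prime, ind (fun p => p + s) {p} (y + s + r)) := by
  have hn1 : 0 ≤ ∑ p ∈ (Ioc P' z).filter Nat.Prime, ind (fun p => p + s) {p} (y + s + r) :=
    sum_nonneg fun p _ => ind_nonneg _ _ _
  have hn2 : 0 ≤ ∑ p ∈ (Ioc z P).filter Nat.Prime, ind (fun p => p + s) {p} (y + s + r) :=
    sum_nonneg fun p _ => ind_nonneg _ _ _
  by_cases h : Cd X P' H' (y + r)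
  · rw [if_pos h]
    linarith
  · rw [if_neg h]
    unfold Cd at h
    push Not at h
    obtain ⟨p, hp, hpP, hpX, j, hj, hlt⟩ := h
    have hpP2 : p ≤ P := by
      by_contra hcon
      push Not at hcon
      have := hy p hp hcon hpX (r + j) (by omega)
      rw [← add_assoc] at this
      omega
    have hind : ind (fun p => p + s) {p} (y + s + r) = 1 := by
      rw [ind_single, if_pos]
      have e1 : y + s + r = (y + r + j) + (s - j) := by omega
      rw [e1, Nat.add_mod]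
      calc ((y + r + j) % p ^ 2 + (s - j) % p ^ 2) % p ^ 2
          ≤ (y + r + j) % p ^ 2 + (s - j) % p ^ 2 := Nat.mod_le _ _
        _ ≤ (y + r + j) % p ^ 2 + (s - j) := Nat.add_le_add_left (Nat.mod_le _ _) _
        _ < p + s := by omega
    by_cases hpz : p ≤ z
    · have h1 : (1 : ℝ) ≤ ∑ p ∈ (Ioc P' z).filter Nat.Prime,
          ind (fun p => p + s) {p} (y + s + r) := by
        rw [← hind]
        exact single_le_sum (f := fun p => ind (fun p => p + s) {p} (y + s + r))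
          (fun p _ => ind_nonneg _ _ _) (mem_filter.2 ⟨mem_Ioc.2 ⟨hpP, hpz⟩, hp⟩)
      linarith
    · have h1 : (1 : ℝ) ≤ ∑ p ∈ (Ioc z P).filter Nat.Prime,
          ind (fun p => p + s) {p} (y + s + r) := by
        rw [← hind]
        exact single_le_sum (f := fun p => ind (fun p => p + s) {p} (y + s + r))
          (fun p _ => ind_nonneg _ _ _) (mem_filter.2 ⟨mem_Ioc.2 ⟨not_le.1 hpz, hpP2⟩, hp⟩)
      linarith

/-- counting the good windows -/
theorem step5 (X P' H' R : ℕ) (Y : Finset ℕ) (hY : Y ⊆ Ico X (2 * X)) (r : ℕ) (hr : r < R) :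
    ∑ y ∈ Y, (open Classical in if Cd X P' H' (y + r) then (1 : ℝ) else 0) ≤
      (Good X P' H').card + R := by
  classical
  rw [sum_boole]
  have h1 : (Y.filter fun y => Cd X P' H' (y + r)).card ≤
      (Good X P' H' ∪ Ico (2 * X) (2 * X + R)).card := by
    refine card_le_card_of_injOn (fun y => y + r) ?_ (fun a _ b _ h => by simpa using h)
    intro y hy
    rw [mem_coe, mem_filter] at hy
    have h2 := mem_Ico.1 (hY hy.1)
    beta_reduce
    rw [mem_coe, mem_union]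
    by_cases h3 : y + r < 2 * X
    · left
      rw [mem_Good]
      exact ⟨mem_Ico.2 ⟨by omega, h3⟩, hy.2⟩
    · right
      exact mem_Ico.2 ⟨by omega, by omega⟩
  have h2 : (Good X P' H' ∪ Ico (2 * X) (2 * X + R)).card ≤ (Good X P' H').card + R := by
    refine (card_union_le _ _).trans ?_
    rw [Nat.card_Ico]
    omega
  calc (((Y.filter fun y => Cd X P' H' (y + r)).card : ℕ) : ℝ)
      ≤ (((Good X P' H').card + R : ℕ) : ℝ) := by exact_mod_cast h1.trans h2
    _ = _ := by push_cast; ring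

/-- the gap primes -/
theorem step4 (hcnt : St_CNT) (X s r p : ℕ) (Y : Finset ℕ) (hY : Y ⊆ Ico X (2 * X))
    (hp : p.Prime) (hsp : s ≤ p) (hpX : p ^ 2 ≤ X) :
    ∑ y ∈ Y, ind (fun p => p + s) {p} (y + s + r) ≤ 4 * X * (1 / (p : ℝ)) := by
  have hp0 : (0 : ℝ) < p := Nat.cast_pos.2 hp.pos
  have h1 : ∑ y ∈ Y, ind (fun p => p + s) {p} (y + s + r) ≤
      ∑ n ∈ Ico (X + (s + r)) (X + (s + r) + X), ind (fun p => p + s) {p} n := by
    have e1 : ∑ y ∈ Y, ind (fun p => p + s) {p} (y + s + r) =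
        ∑ n ∈ Y.map (addRightEmbedding (s + r)), ind (fun p => p + s) {p} n := by
      rw [sum_map]
      refine sum_congr rfl fun y _ => ?_
      rw [addRightEmbedding_apply, add_assoc]
    rw [e1]
    refine sum_le_sum_of_subset_of_nonneg ?_ (fun _ _ _ => ind_nonneg _ _ _)
    intro n hn
    obtain ⟨y, hy, rfl⟩ := mem_map.1 hn
    have := mem_Ico.1 (hY hy)
    rw [addRightEmbedding_apply, mem_Ico]
    omega
  have h2 := hcnt (fun p => p + s) {p} {p} p (X + (s + r)) X (by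
    intro q hq
    rw [mem_singleton] at hq
    subst hq
    have := hp.pos
    refine ⟨hp, le_rfl, ?_, ?_⟩ <;> beta_reduce <;> omega) (Subset.refl _)
  rw [den_single, prod_singleton] at h2
  have h3 := (abs_le.1 h2).2
  have h4 : ((p + s : ℕ) : ℝ) ≤ 2 * p := by
    have : ((p + s : ℕ) : ℝ) ≤ ((2 * p : ℕ) : ℝ) := by exact_mod_cast (by omega : p + s ≤ 2 * p)
    rwa [Nat.cast_mul, Nat.cast_ofNat] at this
  have h5 : (X : ℝ) * (((p + s : ℕ) : ℝ) / (p : ℝ) ^ 2) ≤ X * (2 * p / (p : ℝ) ^ 2) := by gcongr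
  have h6 : (X : ℝ) * (2 * p / (p : ℝ) ^ 2) = 2 * X * (1 / (p : ℝ)) := by
    field_simp
  have h7 : (2 : ℝ) * p ≤ 2 * X * (1 / (p : ℝ)) := by
    rw [mul_one_div, le_div_iff₀ hp0]
    have : (p : ℝ) ^ 2 ≤ X := by exact_mod_cast hpX
    nlinarith
  linarith

/-- the small primes -/
theorem step3 (S : Finset ℕ) (s R : ℕ) (Y : Finset ℕ) (E : ℝ)
    (hE : |∑ y ∈ Y.map (addRightEmbedding s), ∑ r ∈ range R,
      ∑ T ∈ S.map ⟨fun p => ({p} : Finset ℕ), singleton_injective⟩,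
        (1 : ℝ) * (ind (fun p => p + s) T (y + r) - den (fun p => p + s) T)| ≤ E) :
    ∑ y ∈ Y, ∑ r ∈ range R, ∑ p ∈ S, ind (fun p => p + s) {p} (y + s + r) ≤
      Y.card * R * (∑ p ∈ S, ((p + s : ℕ) : ℝ) / (p : ℝ) ^ 2) + E := by
  simp only [sum_map, addRightEmbedding_apply, Function.Embedding.coeFn_mk, one_mul, den_single,
    sum_sub_distrib, sum_const, card_range, card_map, nsmul_eq_mul] at hE
  have h1 := (abs_le.1 hE).2
  have h2 : (Y.card : ℝ) * ((R : ℝ) * ∑ p ∈ S, ((p + s : ℕ) : ℝ) / (p : ℝ) ^ 2) =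
      Y.card * R * (∑ p ∈ S, ((p + s : ℕ) : ℝ) / (p : ℝ) ^ 2) := by ring
  rw [h2] at h1
  linarith

/-- the inequality for fixed `X` -/
theorem core (hcnt : St_CNT) (X P H P' H' z s R : ℕ) (c E : ℝ) (hX : 1 ≤ X)
    (hs : H' ≤ s + 1) (hsP : s ≤ P') (hP : P ^ 2 ≤ X) (hPz : P' ≤ z) (hR : R + H' ≤ H + 1)
    (hR0 : 0 < R)
    (hY : c * X ≤ ((Good X P H).card : ℝ))
    (hM1 : ∑ p ∈ (Ioc P' z).filter Nat.Prime, (1 : ℝ) / p ≤ 0.6942)
    (hst : ∀ p ∈ (Ioc P' z).filter Nat.Prime, (s : ℝ) ≤ 0.008 * p)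
    (hM2 : ∑ p ∈ (Ioc z P).filter Nat.Prime, (1 : ℝ) / p ≤ c / 200)
    (hE : |∑ y ∈ (Good X P H).map (addRightEmbedding s), ∑ r ∈ range R,
      ∑ T ∈ ((Ioc P' z).filter Nat.Prime).map ⟨fun p => ({p} : Finset ℕ), singleton_injective⟩,
        (1 : ℝ) * (ind (fun p => p + s) T (y + r) - den (fun p => p + s) T)| ≤ E)
    (hE2 : E ≤ 0.01 * (c * X) * R) (hR2 : (R : ℝ) ≤ 0.01 * (c * X)) :
    c / 4 * X ≤ ((Good X P' H').card : ℝ) := by
  classical
  set Y := Good X P H with hYdef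
  have hYs : Y ⊆ Ico X (2 * X) := fun y hy => ((mem_Good _ _ _ _).1 hy).1
  have hXr : (0 : ℝ) < X := Nat.cast_pos.2 hX
  have hRr : (0 : ℝ) < R := Nat.cast_pos.2 hR0
  have e1 : (Y.card : ℝ) * R ≤
      ∑ y ∈ Y, ∑ r ∈ range R, (open Classical in if Cd X P' H' (y + r) then (1 : ℝ) else 0) +
      (∑ y ∈ Y, ∑ r ∈ range R,
          ∑ p ∈ (Ioc P' z).filter Nat.Prime, ind (fun p => p + s) {p} (y + s + r) +
        ∑ y ∈ Y, ∑ r ∈ range R,
          ∑ p ∈ (Ioc z P).filter Nat.Prime, ind (fun p => p + s) {p} (y + s + r)) := by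
    have : (Y.card : ℝ) * R = ∑ y ∈ Y, ∑ r ∈ range R, (1 : ℝ) := by
      simp
    rw [this, ← sum_add_distrib, ← sum_add_distrib]
    refine sum_le_sum fun y hy => ?_
    rw [← sum_add_distrib, ← sum_add_distrib]
    refine sum_le_sum fun r hr => ?_
    have hr' := mem_range.1 hr
    exact step1 X P H P' H' z s y r ((mem_Good _ _ _ _).1 hy).2 (by omega) hs
  have e2 := step3 ((Ioc P' z).filter Nat.Prime) s R Y E hE
  have e3 : ∑ y ∈ Y, ∑ r ∈ range R,
      ∑ p ∈ (Ioc z P).filter Nat.Prime, ind (fun p => p + s) {p} (y + s + r) ≤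
      c * X * R / 50 := by
    rw [sum_comm]
    have : ∀ r ∈ range R, ∑ y ∈ Y,
        ∑ p ∈ (Ioc z P).filter Nat.Prime, ind (fun p => p + s) {p} (y + s + r) ≤
        c * X / 50 := by
      intro r hr
      rw [sum_comm]
      calc ∑ p ∈ (Ioc z P).filter Nat.Prime, ∑ y ∈ Y, ind (fun p => p + s) {p} (y + s + r)
          ≤ ∑ p ∈ (Ioc z P).filter Nat.Prime, 4 * X * (1 / (p : ℝ)) := by
            refine sum_le_sum fun p hp => ?_
            rw [mem_filter, mem_Ioc] at hp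
            refine step4 hcnt X s r p Y hYs hp.2 (by omega) ?_
            exact (Nat.pow_le_pow_left hp.1.2 2).trans hP
        _ = 4 * X * ∑ p ∈ (Ioc z P).filter Nat.Prime, (1 / (p : ℝ)) := by rw [mul_sum]
        _ ≤ 4 * X * (c / 200) := by gcongr
        _ = c * X / 50 := by ring
    calc _ ≤ ∑ r ∈ range R, c * X / 50 := sum_le_sum this
      _ = c * X * R / 50 := by rw [sum_const, card_range, nsmul_eq_mul]; ring
  have e4 : ∑ y ∈ Y, ∑ r ∈ range R,
      (open Classical in if Cd X P' H' (y + r) then (1 : ℝ) else 0) ≤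
      R * ((Good X P' H').card + R) := by
    rw [sum_comm]
    calc _ ≤ ∑ r ∈ range R, (((Good X P' H').card : ℝ) + R) :=
          sum_le_sum fun r hr => step5 X P' H' R Y hYs r (mem_range.1 hr)
      _ = _ := by rw [sum_const, card_range, nsmul_eq_mul]
  have e5 : ∑ p ∈ (Ioc P' z).filter Nat.Prime, ((p + s : ℕ) : ℝ) / (p : ℝ) ^ 2 ≤ 0.7 := by
    calc ∑ p ∈ (Ioc P' z).filter Nat.Prime, ((p + s : ℕ) : ℝ) / (p : ℝ) ^ 2
        ≤ ∑ p ∈ (Ioc P' z).filter Nat.Prime, 1.008 * (1 / (p : ℝ)) := by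
          refine sum_le_sum fun p hp => ?_
          have h1 := hst p hp
          have h2 := (mem_filter.1 hp).2.pos
          have h3 : (0 : ℝ) < p := Nat.cast_pos.2 h2
          rw [mul_one_div, div_le_div_iff₀ (by positivity) h3]
          push_cast
          have h4 : ((p : ℝ) + s) * p ≤ (1.008 * p) * p := by
            refine mul_le_mul_of_nonneg_right ?_ h3.le
            linarith
          nlinarith
      _ = 1.008 * ∑ p ∈ (Ioc P' z).filter Nat.Prime, (1 / (p : ℝ)) := by rw [mul_sum]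
      _ ≤ 1.008 * 0.6942 := by gcongr
      _ ≤ 0.7 := by norm_num
  have e6 : (Y.card : ℝ) * R * (∑ p ∈ (Ioc P' z).filter Nat.Prime,
      ((p + s : ℕ) : ℝ) / (p : ℝ) ^ 2) ≤ Y.card * R * 0.7 := by gcongr
  have e7 : (Y.card : ℝ) * R ≤ R * ((Good X P' H').card + R) + (Y.card * R * 0.7 +
      0.01 * (c * X) * R + c * X * R / 50) := by linarith
  have e8 : R * ((Y.card : ℝ) * 0.3) ≤ R * ((Good X P' H').card + R + 0.03 * (c * X)) := by
    linarith
  have e9 := le_of_mul_le_mul_left e8 hRr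
  have e10 : c * X * 0.3 ≤ (Y.card : ℝ) * 0.3 := by gcongr
  linarith

/-- powers -/
theorem pow_large (a b C : ℝ) (h : a < b) :
    ∃ X1 : ℕ, ∀ X : ℕ, X1 ≤ X → C * (X : ℝ) ^ a ≤ (X : ℝ) ^ b := by
  have h1 := tendsto_rpow_atTop (sub_pos.2 h)
  have h2 : ∀ᶠ x : ℝ in Filter.atTop, C ≤ x ^ (b - a) := h1.eventually_ge_atTop C
  have h3 : ∀ᶠ x : ℝ in Filter.atTop, C * x ^ a ≤ x ^ b := by
    filter_upwards [h2, Filter.eventually_gt_atTop 0] with x hx hx0
    calc C * x ^ a ≤ x ^ (b - a) * x ^ a := by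
          have := Real.rpow_nonneg hx0.le a
          gcongr
      _ = x ^ b := by rw [← Real.rpow_add hx0]; congr 1; ring
  have h4 := tendsto_natCast_atTop_atTop (R := ℝ) |>.eventually h3
  obtain ⟨N, hN⟩ := Filter.eventually_atTop.1 h4
  exact ⟨N, hN⟩

theorem logbound (c : ℝ) (hc : 0 < c) (hc1 : c ≤ 1) (α : ℝ) (hα : 0 < α) :
    Real.log (α / (α - 2 * (c * α / 1600))) ≤ c / 400 := by
  have e : α / (α - 2 * (c * α / 1600)) = 1 / (1 - c / 800) := by
    have h1 : α - 2 * (c * α / 1600) = α * (1 - c / 800) := by ring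
    rw [h1, div_mul_eq_div_div, div_self hα.ne']
  have h0 : 0 < 1 - c / 800 := by linarith
  rw [e]
  calc Real.log (1 / (1 - c / 800)) ≤ 1 / (1 - c / 800) - 1 :=
        Real.log_le_sub_one_of_pos (by positivity)
    _ ≤ c / 400 := by
        rw [sub_le_iff_le_add, div_le_iff₀ h0]
        nlinarith

theorem stage (hva : St_VA) (hmass : St_MASS) (hcnt : St_CNT) : St_STAGE := by
  intro α c hα hα4 hc hc1 hCC ε' hε' hε'2
  set ε : ℝ := c * α / 1600 with hε
  have hε0 : 0 < ε := by positivity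
  have hεα : ε ≤ α / 1600 := by
    rw [hε]
    have : c * α ≤ 1 * α := by gcongr
    linarith
  obtain ⟨δ, hδ, XV, hV⟩ := hva (α - 3 / 2 * ε) (α - 2 * ε) (2 * ε) (by linarith) (by linarith)
    (by linarith) (by linarith)
  obtain ⟨XC, hC⟩ := hCC ε hε0 (by linarith)
  obtain ⟨XM1, hM1⟩ := hmass (α / 2) (α - 2 * ε) (1 / 1000) (by linarith) (by linarith)
    (by norm_num)
  obtain ⟨XM2, hM2⟩ := hmass (α - 2 * ε) α (c / 400) (by linarith) (by linarith) (by positivity)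
  obtain ⟨X1, h1⟩ := pow_large 0 (α - ε) 3 (by linarith)
  obtain ⟨X2, h2⟩ := pow_large (α / 2 - ε') (α - ε) 3 (by linarith)
  obtain ⟨X3, h3⟩ := pow_large (α - 3 / 2 * ε) (α - ε) 3 (by linarith)
  obtain ⟨X4, h4⟩ := pow_large (1 / 2 - 4 * ε) (1 / 2 - 2 * ε) 2 (by linarith)
  obtain ⟨X5, h5⟩ := pow_large (-ε') 0 125 (by linarith)
  obtain ⟨X6, h6⟩ := pow_large (1 - δ) 1 (100 / c) (by linarith)
  obtain ⟨X7, h7⟩ := pow_large (α - ε) 1 (100 / c) (by linarith)
  refine ⟨1 + XV + XC + XM1 + XM2 + X1 + X2 + X3 + X4 + X5 + X6 + X7, fun X hX => ?_⟩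
  have g1 := h1 X (by omega)
  have g2 := h2 X (by omega)
  have g3 := h3 X (by omega)
  have g4 := h4 X (by omega)
  have g5 := h5 X (by omega)
  have g6 := h6 X (by omega)
  have g7 := h7 X (by omega)
  have gC := hC X (by omega)
  have gM1 := hM1 X (by omega)
  have gM2 := hM2 X (by omega)
  have hX1 : 1 ≤ X := by omega
  have hXr : (1 : ℝ) ≤ X := by exact_mod_cast hX1
  have hX0 : (0 : ℝ) < X := by linarith
  rw [Real.rpow_zero] at g1 g5
  rw [Real.rpow_one] at g6 g7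
  set P := ⌊(X : ℝ) ^ α⌋₊ with hP
  set H := ⌊(X : ℝ) ^ (α - ε)⌋₊ with hH
  set z := ⌊(X : ℝ) ^ (α - 2 * ε)⌋₊ with hz
  set P' := ⌊(X : ℝ) ^ (α / 2)⌋₊ with hP'
  set H' := ⌊(X : ℝ) ^ (α / 2 - ε')⌋₊ with hH'
  have pos : ∀ t : ℝ, 0 < (X : ℝ) ^ t := fun t => Real.rpow_pos_of_pos hX0 t
  have mono : ∀ {s t : ℝ}, s ≤ t → (X : ℝ) ^ s ≤ (X : ℝ) ^ t := fun h =>
    Real.rpow_le_rpow_of_exponent_le hXr h
  have H'le : (H' : ℝ) ≤ (X : ℝ) ^ (α / 2 - ε') := Nat.floor_le (pos _).le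
  have Hgt : (X : ℝ) ^ (α - ε) < H + 1 := Nat.lt_floor_add_one _
  have Hle : (H : ℝ) ≤ (X : ℝ) ^ (α - ε) := Nat.floor_le (pos _).le
  have zle : (z : ℝ) ≤ (X : ℝ) ^ (α - 2 * ε) := Nat.floor_le (pos _).le
  have Ple : (P : ℝ) ≤ (X : ℝ) ^ α := Nat.floor_le (pos _).le
  have hH'H : H' ≤ H := by
    have : (H' : ℝ) < H + 1 := by
      have := pos (α / 2 - ε')
      linarith
    have h' : H' < H + 1 := by exact_mod_cast this
    omega
  have hRcast : ((H - H' : ℕ) : ℝ) = H - H' := by rw [Nat.cast_sub hH'H]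
  have hR1 : (X : ℝ) ^ (α - 3 / 2 * ε) ≤ ((H - H' : ℕ) : ℝ) := by
    rw [hRcast]
    linarith
  have hR0 : 0 < H - H' := by
    have : (0 : ℝ) < ((H - H' : ℕ) : ℝ) := lt_of_lt_of_le (pos _) hR1
    exact_mod_cast this
  have hP'z : P' ≤ z := Nat.floor_le_floor (mono (by linarith))
  have hH'P' : H' ≤ P' := Nat.floor_le_floor (mono (by linarith))
  have hP2 : P ^ 2 ≤ X := by
    have : (P : ℝ) ^ 2 ≤ X := by
      calc (P : ℝ) ^ 2 ≤ ((X : ℝ) ^ α) ^ 2 := by gcongr
        _ = (X : ℝ) ^ (α * 2) := by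
            rw [Real.rpow_mul hX0.le]
            norm_cast
        _ ≤ (X : ℝ) ^ (1 : ℝ) := mono (by linarith)
        _ = X := Real.rpow_one _
    exact_mod_cast this
  set s := H' - 1 with hs
  set S1 := (Ioc P' z).filter Nat.Prime with hS1
  have hAdm : Adm (fun p => p + s) S1 z := by
    intro q hq
    rw [hS1, mem_filter, mem_Ioc] at hq
    refine ⟨hq.2, hq.1.2, ?_, ?_⟩ <;> beta_reduce <;> omega
  have hsum : ∑ T ∈ S1.map ⟨fun p => ({p} : Finset ℕ), singleton_injective⟩,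
      ∏ q ∈ T, ((q + s : ℕ) : ℝ) ≤ (X : ℝ) ^ (1 / 2 - 2 * ε) := by
    simp only [sum_map, Function.Embedding.coeFn_mk, prod_singleton]
    calc ∑ p ∈ S1, ((p + s : ℕ) : ℝ) ≤ ∑ p ∈ S1, ((2 * z : ℕ) : ℝ) := by
          refine sum_le_sum fun p hp => ?_
          rw [hS1, mem_filter, mem_Ioc] at hp
          exact_mod_cast (by omega : p + s ≤ 2 * z)
      _ = (S1.card : ℝ) * (2 * z) := by
          rw [sum_const, nsmul_eq_mul]; push_cast; ring
      _ ≤ z * (2 * z) := by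
          have : S1.card ≤ z := by
            calc S1.card ≤ (Ioc P' z).card := card_filter_le _ _
              _ = z - P' := Nat.card_Ioc _ _
              _ ≤ z := Nat.sub_le _ _
          have h' : (S1.card : ℝ) ≤ z := by exact_mod_cast this
          gcongr
      _ ≤ (X : ℝ) ^ (α - 2 * ε) * (2 * (X : ℝ) ^ (α - 2 * ε)) := by gcongr
      _ = 2 * (X : ℝ) ^ ((α - 2 * ε) + (α - 2 * ε)) := by
          rw [Real.rpow_add hX0]; ring
      _ ≤ 2 * (X : ℝ) ^ (1 / 2 - 4 * ε) := by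
          have := mono (s := (α - 2 * ε) + (α - 2 * ε)) (t := 1 / 2 - 4 * ε) (by linarith)
          linarith
      _ ≤ _ := g4
  have gV := hV X (by omega) (fun p => p + s) S1 z (H - H') (X + s)
    (S1.map ⟨fun p => ({p} : Finset ℕ), singleton_injective⟩) (fun _ => 1)
    ((Good X P H).map (addRightEmbedding s)) hAdm (by
      intro T hT
      obtain ⟨p, hp, rfl⟩ := mem_map.1 hT
      exact singleton_subset_iff.2 hp) (by simp) zle hR1 hsum (by
      intro n hn
      obtain ⟨y, hy, rfl⟩ := mem_map.1 hn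
      have := mem_Ico.1 ((mem_Good _ _ _ _).1 hy).1
      rw [addRightEmbedding_apply, mem_Ico]
      omega)
  refine core hcnt X P H P' H' z s (H - H') c ((X : ℝ) ^ (1 - δ) * ((H - H' : ℕ) : ℝ)) hX1
    (by omega) (by omega) hP2 hP'z (by omega) hR0 gC ?_ ?_ ?_ gV ?_ ?_
  · refine gM1.trans ?_
    have hl : Real.log ((α - 2 * ε) / (α / 2)) ≤ Real.log 2 := by
      refine Real.log_le_log (div_pos (by linarith) (by linarith)) ?_
      rw [div_le_iff₀ (by linarith)]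
      linarith
    have := Real.log_two_lt_d9
    norm_num at this ⊢
    linarith
  · intro p hp
    rw [mem_filter, mem_Ioc] at hp
    have hpP : (X : ℝ) ^ (α / 2) ≤ p := by
      have h' : (X : ℝ) ^ (α / 2) < P' + 1 := Nat.lt_floor_add_one _
      have h'' : ((P' + 1 : ℕ) : ℝ) ≤ p := by exact_mod_cast (by omega : P' + 1 ≤ p)
      push_cast at h''
      linarith
    have hsH : (s : ℝ) ≤ H' := by exact_mod_cast (by omega : s ≤ H')
    calc (s : ℝ) ≤ (X : ℝ) ^ (α / 2 - ε') := hsH.trans H'le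
      _ = (X : ℝ) ^ (-ε') * (X : ℝ) ^ (α / 2) := by
          rw [← Real.rpow_add hX0]; congr 1; ring
      _ ≤ 0.008 * p := by
          have : (X : ℝ) ^ (-ε') ≤ 0.008 := by norm_num; linarith
          have := pos (α / 2)
          gcongr
  · refine gM2.trans ?_
    have := logbound c hc hc1 α hα
    rw [← hε] at this
    linarith
  · have : (X : ℝ) ^ (1 - δ) ≤ 0.01 * (c * X) := by
      rw [div_mul_eq_mul_div, div_le_iff₀ hc] at g6
      norm_num
      linarith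
    gcongr
  · rw [hRcast]
    rw [div_mul_eq_mul_div, div_le_iff₀ hc] at g7
    have : (0 : ℝ) ≤ H' := Nat.cast_nonneg _
    norm_num
    linarith

end Pool.Agent.H536R5.EP
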